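import Pool.Agent.H37.Vl2

set_option autoImplicit false

open Pool.Agent.H37.Vl

/-- `(A, B)` has the van Lambalgen property exactly when every `A`-random set forms a minimal
pair with `B`. -/
theorem Pool.Agent.Results.MP_7624cc_lc.Iff.result (A B : ℕ → Bool) :
    VL A B ↔ ∀ Z, RandIn A Z → MinPair Z B :=
  main A B
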